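import Pool.Agent.V5helper50.RC.Stm
import Pool.Agent.V5helper18.RS.ASM

/-!
# Project RC, job ASMB: failure of the order of magnitude for small dimensions
-/

set_option autoImplicit false

open Finset MeasureTheory ProbabilityTheory

namespace Pool.Agent.V5helper71.RC

open Pool.Agent.V5helper50.RS (av pr Tk M Model S_LAW S_INT S_RES S_BC S_MOD)
open Pool.Agent.V5helper50.RC

lemma R_congr {k : ℕ} {q t t' : ℕ → ℕ} {j n u : ℕ} (h : ∀ x < n, t x = t' x) :
    R k q t j n u = R k q t' j n u := by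
  unfold R
  congr 1
  apply Finset.filter_congr
  intro x hx
  have h1 : ∑ i, A k q t (x i) = ∑ i, A k q t' (x i) := by
    apply Finset.sum_congr rfl
    intro i _
    have h2 := Fintype.mem_piFinset.1 hx i
    rw [A, A, h _ (Finset.mem_range.1 h2)]
  rw [h1]

lemma two_mul_le_pow (l : ℕ) : 2 * l ≤ 2 ^ l := by
  rcases l with _ | n
  · simp
  · have h := Nat.lt_two_pow_self (n := n)
    rw [pow_succ]
    omega

/-- there are arbitrarily large jumps -/
lemma exists_jump {K : ℕ} {q : ℕ → ℕ} (hq : Chain K q) (hall : ∀ m : ℕ, 1 ≤ m → ∃ x, m ∣ q x)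
    (B : ℕ) : ∃ y, B ≤ y ∧ q (y + 1) ≠ q y := by
  by_contra hcon
  push Not at hcon
  have hconst : ∀ x, B ≤ x → q x = q B := by
    intro x hx
    induction x, hx using Nat.le_induction with
    | base => rfl
    | succ x hx ih => rw [hcon x hx, ih]
  obtain ⟨x, hx⟩ := hall (q B + 1) (by omega)
  have h1 : q B + 1 ≤ q x := Nat.le_of_dvd (hq.pos x) hx
  rcases le_total x B with h2 | h2
  · have := hq.mono h2
    omega
  · rw [hconst x h2] at h1
    omega

lemma A_zero {k : ℕ} {q t : ℕ → ℕ} (hk : 3 ≤ k) (ht : ∀ y, t y < Tk k y) : A k q t 0 = 0 := by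
  have h1 := ht 0
  have h2 : Tk k 0 = 1 := by
    rw [Tk, zero_pow (by omega)]
    simp
  rw [h2] at h1
  have h3 : t 0 = 0 := by omega
  rw [A, h3, zero_pow (by omega)]
  simp

lemma R_pos {k : ℕ} {q t : ℕ → ℕ} {d L x : ℕ} (hk : 3 ≤ k) (hd : 1 ≤ d)
    (ht : ∀ y, t y < Tk k y) (hx : x ≤ L) : 1 ≤ R k q t d (L + 1) (A k q t x) := by
  classical
  unfold R
  apply Finset.card_pos.2
  have i0 : Fin d := ⟨0, by omega⟩
  refine ⟨fun i => if i = i0 then x else 0, ?_⟩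
  rw [Finset.mem_filter, Fintype.mem_piFinset]
  refine ⟨fun i => ?_, ?_⟩
  · rw [Finset.mem_range]
    show (if i = i0 then x else 0) < L + 1
    split_ifs <;> omega
  · have h1 : ∀ i, A k q t (if i = i0 then x else 0) = if i = i0 then A k q t x else 0 := by
      intro i
      split_ifs
      · rfl
      · exact A_zero hk ht
    simp only [h1]
    rw [Finset.sum_ite_eq' Finset.univ i0]
    simp

/-- **Job ASMB.** -/
theorem t_ASMB : S_ASMB := by
  intro hLAW hBC hNR k K q d hk hd hq hall hLOC hUP Ω _ μ θ hM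
  obtain ⟨C, hC, hUP⟩ := hUP
  have hae : ∀ᵐ ω ∂μ, ∀ i : ℕ, ∃ L₁ : ℕ, ∀ L : ℕ, L ≥ L₁ → ¬ (∃ u : ℕ, L ^ k ≤ u ∧ u < (L + 1) ^ k ∧
      C * ((L : ℝ) ^ d / (L : ℝ) ^ k) *
          ((W k (q (V5helper50.RC.sq L)) (q L) d u : ℝ) / (q (V5helper50.RC.sq L) : ℝ) ^ (d - 1)) +
        (1 / ((i : ℝ) + 1)) * ((L : ℝ) ^ d / (L : ℝ) ^ k) <
          (R k q (fun x => θ x ω) d (L + 1) u : ℝ)) := by
    rw [ae_all_iff]
    intro i
    obtain ⟨C', L₀, hL₀, h⟩ := hUP (1 / ((i : ℝ) + 1)) (by positivity)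
    exact hBC hLAW k Ω μ θ hM (fun L t => ∃ u : ℕ, L ^ k ≤ u ∧ u < (L + 1) ^ k ∧
      C * ((L : ℝ) ^ d / (L : ℝ) ^ k) *
          ((W k (q (V5helper50.RC.sq L)) (q L) d u : ℝ) / (q (V5helper50.RC.sq L) : ℝ) ^ (d - 1)) +
        (1 / ((i : ℝ) + 1)) * ((L : ℝ) ^ d / (L : ℝ) ^ k) <
          (R k q t d (L + 1) u : ℝ)) C' L₀ (fun L t t' h => by
            apply exists_congr
            intro u
            rw [R_congr h]) h
  filter_upwards [hae] with ω hω
  rintro ⟨c, C₂, hc, u₀, hord⟩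
  have ht : ∀ y, (fun x => θ x ω) y < Tk k y := fun y => hM.bound y ω
  generalize (fun x => θ x ω) = t at hω hord ht
  have hcc : 0 < c / (2 ^ d * (C + 1)) := by positivity
  obtain ⟨i, hi⟩ := exists_nat_one_div_lt hcc
  obtain ⟨L₁, hL₁⟩ := hω i
  have hε : (0 : ℝ) < 1 / ((i : ℝ) + 1) := by positivity
  generalize (1 / ((i : ℝ) + 1)) = ε at hi hL₁ hε
  obtain ⟨Q₀, hQ₀, hW⟩ := hLOC ε hε
  obtain ⟨x₁, hx₁⟩ := hall Q₀ hQ₀
  obtain ⟨y, hy, hjump⟩ := exists_jump hq hall (x₁ + u₀ + L₁ + 4 * k + 2 * K + 4)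
  have hQdef : ∀ z, y < z → z ≤ y ^ 4 → q z = q (y + 1) := fun z h1 h2 => hq.sparse y z hjump h1 h2
  have hQ₀d : Q₀ ∣ q (y + 1) := hx₁.trans (hq.dvd (by omega))
  have hQ1 : 1 ≤ q (y + 1) := hq.pos _
  have hQy : q (y + 1) ≤ y := by
    have h1 := hq.slow (y + 1)
    have h2 := two_mul_le_pow (Nat.log 2 (y + 1 + 1))
    have h3 : 2 ^ Nat.log 2 (y + 1 + 1) ≤ y + 1 + 1 := Nat.pow_log_le_self 2 (by omega)
    omega
  generalize q (y + 1) = Q at hQdef hQ₀d hQ1 hQy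
  -- the number `x`
  obtain ⟨x, hx⟩ : ∃ x, x = Q * y ^ 2 := ⟨_, rfl⟩
  have hy4 : 4 ≤ y := by omega
  have hyy : y ≤ y ^ 2 := by nlinarith
  have hyx : y ^ 2 ≤ x := by rw [hx]; exact Nat.le_mul_of_pos_left _ hQ1
  have hxy3 : x ≤ y ^ 3 := by
    rw [hx, pow_succ' y 2]
    exact Nat.mul_le_mul_right _ hQy
  have hy34 : 2 * y ^ 3 ≤ y ^ 4 := by
    rw [pow_succ' y 3]
    exact Nat.mul_le_mul_right _ (by omega)
  have hyx' : y < x := by nlinarith
  have hqx : q x = Q := hQdef x hyx' (by omega)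
  have htx : t x < 4 * k * x ^ (k - 1) := by
    have h1 := ht x
    rw [Tk] at h1
    have h2 : 1 ≤ 4 * k * x ^ (k - 1) := by
      have h3 : 1 ≤ x ^ (k - 1) := Nat.one_le_pow _ _ (by omega)
      nlinarith
    rwa [max_eq_right h2] at h1
  obtain ⟨u, hu⟩ : ∃ u, u = A k q t x := ⟨_, rfl⟩
  have hu' : u = x ^ k + Q * t x := by rw [hu, A, hqx]
  have hxu : x ^ k ≤ u := by omega
  have hxk : x ^ k = x * x ^ (k - 1) := by
    rw [← pow_succ']
    congr 1
    omega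
  have hu2 : u ≤ (2 * x) ^ k := by
    have h1 : Q * t x ≤ x ^ k := by
      rw [hxk]
      calc Q * t x ≤ Q * (4 * k * x ^ (k - 1)) := Nat.mul_le_mul_left _ htx.le
        _ = (Q * (4 * k)) * x ^ (k - 1) := by ring
        _ ≤ x * x ^ (k - 1) := by
            apply Nat.mul_le_mul_right
            rw [hx]
            apply Nat.mul_le_mul_left
            omega
    have h2 : 2 * x ^ k ≤ (2 * x) ^ k := by
      rw [mul_pow]
      apply Nat.mul_le_mul_right
      exact Nat.le_self_pow (by omega) 2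
    omega
  have hxx : x ≤ x ^ k := Nat.le_self_pow (by omega) x
  have hu1 : 1 ≤ u := by omega
  obtain ⟨L, hL, hLu, huL⟩ := Pool.Agent.V5helper18.RS.exists_root (k := k) (by omega) hu1
  have hxL : x ≤ L := by
    have h1 : x ^ k < (L + 1) ^ k := lt_of_le_of_lt hxu huL
    have h2 := lt_of_pow_lt_pow_left₀ k (Nat.zero_le _) h1
    omega
  have hL2x : L ≤ 2 * x := by
    have h1 : L ^ k ≤ (2 * x) ^ k := hLu.trans hu2
    exact le_of_not_gt fun h2 => absurd h1 (not_le.2 (Nat.pow_lt_pow_left h2 (by omega)))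
  have hL4 : L ≤ y ^ 4 := by omega
  have hsq1 : y < V5helper50.RC.sq L := by
    have h1 : y ≤ Nat.sqrt L := by
      rw [Nat.le_sqrt', pow_two] at *
      first
        | exact (by nlinarith)
        | omega
    unfold V5helper50.RC.sq
    omega
  have hsq2 : V5helper50.RC.sq L ≤ y ^ 4 := by
    have h1 : Nat.sqrt L < L := Nat.sqrt_lt_self (by omega)
    unfold V5helper50.RC.sq
    omega
  have hqL : q L = Q := hQdef L (by omega) hL4
  have hqs : q (V5helper50.RC.sq L) = Q := hQdef _ hsq1 hsq2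
  have hQu : Q ∣ u := by
    rw [hu']
    apply Nat.dvd_add
    · rw [hxk, hx]
      exact Dvd.dvd.mul_right (Nat.dvd_mul_right _ _) _
    · exact Nat.dvd_mul_right _ _
  have hWu := hW Q u hQ1 hQ₀d hQu
  -- the bounds
  have hR := hL₁ L (by omega)
  push Not at hR
  have hR := hR u hLu huL
  rw [hqL, hqs] at hR
  obtain ⟨hN1, hN2⟩ := hNR k q t d L u (by omega) hLu huL
  have hRpos : 1 ≤ R k q t d (L + 1) u := by
    rw [hu]
    exact R_pos hk (by omega) ht hxL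
  have hNne : N k q t d u ≠ 0 := by omega
  have hlow := (hord u (by omega) hNne).1
  obtain ⟨hs1, -⟩ := Pool.Agent.V5helper18.RS.scale (d := d) (k := k) (by omega) (by omega) hL hLu huL
  have hN2' : (N k q t d u : ℝ) ≤ 2 ^ d * (R k q t d (L + 1) u : ℝ) := by exact_mod_cast hN2
  have hX0 : (0 : ℝ) < (u : ℝ) ^ ((d : ℝ) / k - 1) := Real.rpow_pos_of_pos (by exact_mod_cast hu1) _
  have hY0 : (0 : ℝ) ≤ (L : ℝ) ^ d / (L : ℝ) ^ k := by positivity
  have hQpos : (0 : ℝ) < (Q : ℝ) ^ (d - 1) := by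
    have : (0 : ℝ) < Q := by exact_mod_cast hQ1
    positivity
  have hWq : (W k Q Q d u : ℝ) / (Q : ℝ) ^ (d - 1) ≤ ε := by
    rw [div_le_iff₀ hQpos]
    exact hWu
  generalize (u : ℝ) ^ ((d : ℝ) / k - 1) = X at hlow hs1 hX0
  generalize (L : ℝ) ^ d / (L : ℝ) ^ k = Y at hs1 hY0 hR
  generalize (W k Q Q d u : ℝ) / (Q : ℝ) ^ (d - 1) = w at hWq hR
  have h1 : C * Y * w ≤ C * Y * ε := mul_le_mul_of_nonneg_left hWq (by positivity)
  have h2 : (R k q t d (L + 1) u : ℝ) ≤ (C + 1) * ε * Y := by nlinarith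
  have h3 : (C + 1) * ε * Y ≤ (C + 1) * ε * X := mul_le_mul_of_nonneg_left hs1 (by positivity)
  have h4 : c * X ≤ 2 ^ d * ((C + 1) * ε * X) := by
    refine hlow.trans (hN2'.trans ?_)
    exact mul_le_mul_of_nonneg_left (h2.trans h3) (by positivity)
  have h5 : ε * (2 ^ d * (C + 1)) < c := by
    rwa [lt_div_iff₀ (by positivity)] at hi
  have h6 : 2 ^ d * ((C + 1) * ε * X) = ε * (2 ^ d * (C + 1)) * X := by ring
  rw [h6] at h4
  have h7 := le_of_mul_le_mul_right h4 hX0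
  linarith

end Pool.Agent.V5helper71.RC
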